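import Pool.Agent.H309.SD.Slow
import Pool.Agent.H309.SD.Stmt

/-!
# Arbitrarily slow dispersive decay for a periodically forced Dirac equation

For every `ε > 0` there is a bounded measurable Hermitian-valued periodic forcing `ν` which is
dispersive and for which a decay estimate of order `(r, σ)` can hold only if `σ ≤ ε`.

The definitions (`Pool/Agent/H309/SD/Stmt.lean`) match the problem file as follows.

* `IsSolution ν α`: the `L²` solution of `i ∂ₜ α = (i σ₃ ∂ₓ + ν(t)) α`, through its Fourier
  transform, which solves for almost every frequency an ordinary differential equation in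
  integrated form.
* `WellPosed ν`: for every datum in `L²` there is exactly one solution.
* `DecayEstimate ν r σ`: the decay estimate of order `(r, σ)`.
* `Dispersive ν`: a decay estimate of some order `(r, σ)`, `r ≥ 0`, `σ > 0`, holds.
* `Forcing T ν`: `T > 0` and `ν` is measurable, bounded, `T`-periodic and Hermitian-valued.

The forcing is piecewise constant. Its period map at the frequency `ξ` has the trace `2 F(ξ)` with
`F(ξ) = O(|ξ|^(3^n))`: it is built from a pulse which exchanges the two components at `ξ = 0` by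
`n` iterations of a universal composite of five pulses, which cubes the error whatever its phase.
The decay estimate holds for almost all choices of the phases between the pulses.
-/

open MeasureTheory Set FourierTransform
open scoped ENNReal Real

namespace Pool.Agent.Results.MP_24bb3f_an.SlowDispersion

open Pool.Agent.H309 Pool.Agent.H309.SD

lemma isSolution_iff (ν : ℝ → Dirac.M2) (α : ℝ → Dirac.L2) :
    Dirac.IsSolution ν α ↔ SD.IsSolution ν α := Iff.rfl

lemma decay_of {ν : ℝ → Dirac.M2} {r σ : ℝ} (h : SD.DecayEstimate ν r σ) :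
    Dirac.DecayEstimate ν r σ := by
  obtain ⟨c, hc⟩ := h
  exact ⟨c, fun α hα g hg t ht => hc α hα g hg.1 hg.2 t ht⟩

lemma of_decay {ν : ℝ → Dirac.M2} {r σ : ℝ} (h : Dirac.DecayEstimate ν r σ) :
    SD.DecayEstimate ν r σ := by
  obtain ⟨c, hc⟩ := h
  exact ⟨c, fun α hα g hg hrel t ht => hc α hα g ⟨hg, hrel⟩ t ht⟩

/-- **Arbitrarily slow dispersion.** -/
theorem result : ∀ ε : ℝ, 0 < ε → ∃ (T : ℝ) (ν : ℝ → Dirac.M2), Dirac.Forcing T ν ∧
    Dirac.WellPosed ν ∧ Dirac.Dispersive ν ∧
    ∀ r σ : ℝ, 0 ≤ r → 0 < σ → Dirac.DecayEstimate ν r σ → σ ≤ ε := by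
  intro ε hε
  obtain ⟨n, hn⟩ := exists_nat_gt (1 / ε)
  obtain ⟨f, g, ⟨T, d, e, p, q, P, hpq⟩, hf, hg, ⟨C, hC⟩, κ, hκ, hG, hD⟩ := level_final n
  have hpf : p T = f := funext fun x => (hpq x).1
  have hT := P.pos
  obtain ⟨K, hK⟩ := P.bd
  refine ⟨T, nuM (per T d) (per T e), ⟨hT, ?_, ?_, ?_, ?_⟩, ⟨fun u => exists_solution P u,
    fun α β hα hβ h0 t ht => unique_solution P hα hβ h0 t ht⟩,
    ⟨4, min (κ / 12) (1 / 4), by norm_num, lt_min (by positivity) (by norm_num),
      decay_of (decay P (by rw [hpf]; exact hf) hκ (by rw [hpf]; exact hG)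
        (by rw [hpf]; exact hD))⟩,
    fun r σ hr _ hdec => ?_⟩
  · intro i j
    have md : Measurable (fun t => ((per T d t : ℝ) : ℂ)) :=
      Complex.measurable_ofReal.comp (per_meas P.md)
    have me : Measurable (per T e) := per_meas P.me
    have me' : Measurable (fun t => (starRingEnd ℂ) (per T e t)) :=
      Complex.continuous_conj.measurable.comp me
    fin_cases i <;> fin_cases j
    · exact md
    · exact me'
    · exact me
    · exact md.neg
  · refine ⟨K, fun t i j => ?_⟩
    have h1 : ‖((per T d t : ℝ) : ℂ)‖ ≤ K := by rw [Complex.norm_real]; exact (hK _).1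
    have h2 : ‖per T e t‖ ≤ K := (hK _).2
    fin_cases i <;> fin_cases j
    · exact h1
    · exact (Complex.norm_conj _).le.trans h2
    · exact h2
    · exact (norm_neg _).le.trans h1
  · intro t
    unfold nuM
    rw [per_add hT, per_add hT]
  · intro t
    ext i j
    fin_cases i <;> fin_cases j <;> simp [nuM, Matrix.conjTranspose_apply]
  · have h1 := slow P (k := 3 ^ n) (Nat.one_le_pow _ _ (by norm_num)) (by rw [hpf]; exact hC) hr (of_decay hdec)
    refine h1.trans ?_
    have h2 : (n : ℝ) ≤ ((3 ^ n : ℕ) : ℝ) := by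
      exact_mod_cast (Nat.lt_pow_self (by norm_num)).le
    rw [div_le_iff₀ (by positivity)]
    rw [div_lt_iff₀ hε] at hn
    nlinarith

end Pool.Agent.Results.MP_24bb3f_an.SlowDispersion
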